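import Pool.Agent.Y502.OM.Pos
import Pool.Agent.H904R3.Gen

/-!
# Composition of computations; functionals which do not compute `Ω_C`
-/

set_option autoImplicit false

namespace Pool.Agent.Y502.OM

open Pool.Agent.H904R3 MeasureTheory

/-! ### Renaming of variables -/

/-- A renaming under a binder. -/
def liftR {Γ Δ : List Ty} {σ : Ty} (r : ∀ τ, Var Γ τ → Var Δ τ) :
    ∀ τ, Var (σ :: Γ) τ → Var (σ :: Δ) τ
  | _, .zero => .zero
  | _, .succ v => .succ (r _ v)

/-- Renaming of the free variables. -/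
def ren : {Γ : List Ty} → {σ : Ty} → Term Γ σ → {Δ : List Ty} → (∀ τ, Var Γ τ → Var Δ τ) →
    Term Δ σ
  | _, _, .var v, _, r => .var (r _ v)
  | _, _, .zero, _, _ => .zero
  | _, _, .succ, _, _ => .succ
  | _, _, .pred, _, _ => .pred
  | _, _, .cases, _, _ => .cases
  | _, _, .fix σ, _, _ => .fix σ
  | _, _, .app s t, _, r => .app (ren s r) (ren t r)
  | _, _, .lam t, _, r => .lam (ren t (liftR r))

theorem eval_ren : ∀ {Γ : List Ty} {σ : Ty} (t : Term Γ σ) {Δ : List Ty}
    (r : ∀ τ, Var Γ τ → Var Δ τ) (ρ : Env Γ) (ρ' : Env Δ),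
    (∀ τ (v : Var Γ τ), look (r τ v) ρ' = look v ρ) → eval (ren t r) ρ' = eval t ρ
  | _, _, .var v, _, r, ρ, ρ', h => h _ v
  | _, _, .zero, _, _, _, _, _ => rfl
  | _, _, .succ, _, _, _, _, _ => rfl
  | _, _, .pred, _, _, _, _, _ => rfl
  | _, _, .cases, _, _, _, _, _ => rfl
  | _, _, .fix σ, _, _, _, _, _ => rfl
  | _, _, .app s t, _, r, ρ, ρ', h => by
    show ap (eval (ren s r) ρ') (eval (ren t r) ρ') = ap (eval s ρ) (eval t ρ)
    rw [eval_ren s r ρ ρ' h, eval_ren t r ρ ρ' h]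
  | _, _, .lam t, _, r, ρ, ρ', h => by
    refine dom_ext fun x => ?_
    show eval (ren t (liftR r)) (ext x ρ') = eval t (ext x ρ)
    refine eval_ren t (liftR r) (ext x ρ) (ext x ρ') ?_
    intro τ v
    match τ, v with
    | _, .zero => rfl
    | _, .succ v => exact h _ v

/-- The inclusion of the two variables into a longer context. -/
def inc2 {Γ : List Ty} {σ τ : Ty} : ∀ υ, Var [σ, τ] υ → Var (σ :: τ :: Γ) υ
  | _, .zero => .zero
  | _, .succ .zero => .succ .zero

/-- Substitution of two terms for the two variables. -/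
def sub2 {Γ : List Ty} {σ τ υ : Ty} (s : Term [σ, τ] υ) (a : Term Γ σ) (b : Term Γ τ) :
    Term Γ υ :=
  .app (.app (.lam (.lam (ren s inc2))) b) a

theorem eval_sub2 {Γ : List Ty} {σ τ υ : Ty} (s : Term [σ, τ] υ) (a : Term Γ σ) (b : Term Γ τ)
    (ρ : Env Γ) : eval (sub2 s a b) ρ = eval s (ext (eval a ρ) (ext (eval b ρ) empt)) := by
  show eval (ren s inc2) (ext (eval a ρ) (ext (eval b ρ) ρ)) = _
  apply eval_ren
  intro τ' v
  match τ', v with
  | _, .zero => rfl
  | _, .succ .zero => rfl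

/-! ### Two functionals of type `2` in one -/

/-- Two functionals in one. -/
def mrg (F G : (ℕ → ℕ) → ℕ) (f : ℕ → ℕ) : ℕ :=
  if f 0 = 0 then F (fun n => f (n + 1)) else G (fun n => f (n + 1))

/-- The terms for the two parts. -/
def part (c : Term (.nat :: ty1 :: [ty3, ty2]) .nat) : Term [ty3, ty2] ty2 :=
  .lam (.app (.var (.succ (.succ .zero)))
    (.lam (cs (.var .zero) c (.app (.var (.succ .zero)) (.app .pred (.var .zero))))))

theorem le_part (F H : (ℕ → ℕ) → ℕ) (k : ℕ) (c : Term (.nat :: ty1 :: [ty3, ty2]) .nat)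
    (hc : ∀ ρ, eval c ρ = ofPt (Part.some k))
    (hH : ∀ f : ℕ → ℕ, H (fun n => if n = 0 then k else f (n - 1)) = F f) (a : Dom ty3) :
    tot2 F ≤ eval (part c) (ext a (ext (tot2 H) empt)) := by
  rw [le_arr]
  intro f
  rw [le_nat]
  rintro m ⟨hd, hm⟩
  have hm' : F (fun n => (at1 f n).get (hd n)) = m := hm
  set g : ℕ → ℕ := fun n => (at1 f n).get (hd n) with hg
  let q : Dom ty1 := eval (.lam (cs (.var .zero) c
    (.app (.var (.succ .zero)) (.app .pred (.var .zero))))) (ext f (ext a (ext (tot2 H) empt)))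
  show m ∈ pt (ap (tot2 H) q)
  have hq : ∀ n, at1 q n = Part.some (if n = 0 then k else g (n - 1)) := by
    intro n
    show pt (casesF (ofPt (Part.some n)) (eval c _)
      (ap f (ofPt ((Part.some n).map Nat.pred)))) = _
    rw [hc, casesF_some, Part.map_some]
    by_cases hn : n = 0
    · rw [if_pos hn, if_pos hn]
      rfl
    · rw [if_neg hn, if_neg hn]
      show at1 f (n - 1) = _
      exact Part.get_eq_iff_eq_some.1 rfl
  rw [ap_tot2 H hq, Part.mem_some_iff, hH, hm']

theorem le_part0 (F G : (ℕ → ℕ) → ℕ) (a : Dom ty3) :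
    tot2 F ≤ eval (part .zero) (ext a (ext (tot2 (mrg F G)) empt)) :=
  le_part F (mrg F G) 0 .zero (fun _ => rfl) (fun f => by simp [mrg]) a

theorem le_part1 (F G : (ℕ → ℕ) → ℕ) (a : Dom ty3) :
    tot2 G ≤ eval (part one) (ext a (ext (tot2 (mrg F G)) empt)) :=
  le_part G (mrg F G) 1 one (fun ρ => eval_one ρ) (fun f => by simp [mrg]) a

theorem measurable_mrg {F G : (ℕ → ℕ) → ℕ} (hF : Measurable F) (hG : Measurable G) :
    Measurable (mrg F G) := by
  have hs : Measurable (fun f : ℕ → ℕ => fun n => f (n + 1)) :=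
    measurable_pi_iff.2 fun n => measurable_pi_apply (n + 1)
  refine Measurable.ite ?_ (hF.comp hs) (hG.comp hs)
  exact measurable_pi_apply (0 : ℕ) (measurableSet_singleton 0)

theorem measurable_chi {R : Cantor → Cantor → Prop}
    (hR : MeasurableSet {p : Cantor × Cantor | R p.1 p.2}) : Measurable (chi R) := by
  classical
  have h1 : Measurable fstC := by
    refine measurable_pi_iff.2 fun n => ?_
    exact (measurable_from_top (f := fun k : ℕ => decide (2 ≤ k))).comp (measurable_pi_apply n)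
  have h2 : Measurable sndC := by
    refine measurable_pi_iff.2 fun n => ?_
    exact (measurable_from_top (f := fun k : ℕ => decide (k % 2 = 1))).comp (measurable_pi_apply n)
  have h3 : MeasurableSet {f : ℕ → ℕ | R (fstC f) (sndC f)} := (h1.prodMk h2) hR
  exact Measurable.ite h3 measurable_const measurable_const

/-- Restriction to a smaller class of sets. -/
theorem omega_mono {𝒞 𝒟 : Set (Set Cantor)} (h : 𝒞 ⊆ 𝒟) : Omega 𝒞 ≤ Omega 𝒟 := by
  rw [le_arr]
  intro p
  rw [le_nat]
  rintro k ⟨⟨h1, h2⟩, h3⟩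
  exact ⟨⟨h1, h h2⟩, h3⟩

/-- **The negative theorem.** -/
theorem not_computable_WO {R : Cantor → Cantor → Prop}
    (hR : MeasurableSet {p : Cantor × Cantor | R p.1 p.2}) {G : (ℕ → ℕ) → ℕ} (hG : Measurable G)
    {𝒞 : Set (Set Cantor)} (h𝒞 : 𝒞 ⊆ WO R) (s : Term [ty3, ty2] ty3) :
    ¬ OmegaC ≤ eval s (ext (Omega 𝒞) (ext (tot2 G) empt)) := by
  intro h
  have hb : @Measurable _ _ (borel (ℕ → ℕ)) ⊤ (mrg (chi R) G) := by
    have := measurable_mrg (measurable_chi hR) hG
    rwa [← BorelSpace.measurable_eq (α := ℕ → ℕ)]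
  refine not_computable hb (sub2 s (sub2 tm (.var .zero) (part .zero)) (part one)) ?_
  refine le_trans h ?_
  rw [eval_sub2, eval_sub2]
  refine (eval s).monotone (ext_mono ?_ (ext_mono ?_ le_rfl))
  · refine le_trans (omega_mono h𝒞) (le_trans (omega_WO_le R) ?_)
    refine (eval tm).monotone (ext_mono le_rfl (ext_mono ?_ le_rfl))
    exact le_part0 _ _ _
  · exact le_part1 _ _ _

end Pool.Agent.Y502.OM
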