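import Pool.Agent.H904R3.Adeq

/-!
# Emptiness of well-ordered sets is computable in `Ω_b` and the order

For a relation `R` on Cantor space let `WO R` be the class of the subsets of Cantor space on which
`R` is a well-order. The functional `Omega (WO R)` is computable in `Ω_b` and the characteristic
functional of `R`.
-/

set_option autoImplicit false

namespace Pool.Agent.Y502.OM

open Pool.Agent.H904R3

/-- Two points of Cantor space coded by one function with values less than `4`. -/
def pairF (x y : Cantor) (n : ℕ) : ℕ := 2 * (x n).toNat + (y n).toNat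

/-- The first component. -/
def fstC (f : ℕ → ℕ) : Cantor := fun n => decide (2 ≤ f n)

/-- The second component. -/
def sndC (f : ℕ → ℕ) : Cantor := fun n => decide (f n % 2 = 1)

theorem fstC_pairF (x y : Cantor) : fstC (pairF x y) = x := by
  funext n
  show decide (2 ≤ 2 * (x n).toNat + (y n).toNat) = x n
  cases x n <;> cases y n <;> rfl

theorem sndC_pairF (x y : Cantor) : sndC (pairF x y) = y := by
  funext n
  show decide ((2 * (x n).toNat + (y n).toNat) % 2 = 1) = y n
  cases x n <;> cases y n <;> rfl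

open Classical in
/-- The characteristic functional of the relation `R`, a functional of type `2`. -/
noncomputable def chi (R : Cantor → Cantor → Prop) (f : ℕ → ℕ) : ℕ :=
  if R (fstC f) (sndC f) then 1 else 0

/-- The sets on which `R` is a well-order (well-founded and trichotomous; then `R` is also
transitive on the set). -/
def WO (R : Cantor → Cantor → Prop) : Set (Set Cantor) :=
  {X | X.WellFoundedOn R ∧ ∀ x ∈ X, ∀ y ∈ X, R x y ∨ x = y ∨ R y x}

/-! ### Terms -/

section terms

variable {Γ : List Ty}

/-- Definition by cases. -/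
def cs (a b c : Term Γ .nat) : Term Γ .nat := .app (.app (.app .cases a) b) c

/-- The numbers. -/
def one : Term Γ .nat := .app .succ .zero

/-- The numbers. -/
def two : Term Γ .nat := .app .succ one

/-- The numbers. -/
def three : Term Γ .nat := .app .succ two

theorem eval_cs (a b c : Term Γ .nat) (ρ : Env Γ) :
    eval (cs a b c) ρ = casesF (eval a ρ) (eval b ρ) (eval c ρ) := rfl

theorem eval_zero (ρ : Env Γ) : eval (.zero : Term Γ .nat) ρ = ofPt (Part.some 0) := rfl

theorem eval_one (ρ : Env Γ) : eval (one : Term Γ .nat) ρ = ofPt (Part.some 1) := by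
  show ofPt ((Part.some 0).map Nat.succ) = _
  rw [Part.map_some]

theorem eval_two (ρ : Env Γ) : eval (two : Term Γ .nat) ρ = ofPt (Part.some 2) := by
  show ofPt ((pt (eval (one : Term Γ .nat) ρ)).map Nat.succ) = _
  rw [eval_one, pt_ofPt, Part.map_some]

theorem eval_three (ρ : Env Γ) : eval (three : Term Γ .nat) ρ = ofPt (Part.some 3) := by
  show ofPt ((pt (eval (two : Term Γ .nat) ρ)).map Nat.succ) = _
  rw [eval_two, pt_ofPt, Part.map_some]

end terms

theorem casesF_some (n : ℕ) (y z : Dom .nat) :
    casesF (ofPt (Part.some n)) y z = if n = 0 then y else z := by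
  unfold casesF
  rw [pt_ofPt, Part.bind_some]
  split_ifs <;> rfl

theorem casesF_of {x : Dom .nat} {n : ℕ} (h : pt x = Part.some n) (y z : Dom .nat) :
    casesF x y z = if n = 0 then y else z := by
  have : x = ofPt (Part.some n) := h
  rw [this, casesF_some]

theorem at1_embC (x : Cantor) (n : ℕ) : at1 (embC x) n = Part.some (x n).toNat := by
  show (Part.some n).map (fun n => (x n).toNat) = _
  rw [Part.map_some]

/-- The pair of the first two variables. -/
def pairT (Γ : List Ty) : Term (ty1 :: ty1 :: Γ) ty1 :=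
  .lam (cs (.app (.var (.succ .zero)) (.var .zero))
    (cs (.app (.var (.succ (.succ .zero))) (.var .zero)) .zero one)
    (cs (.app (.var (.succ (.succ .zero))) (.var .zero)) two three))

theorem at1_pairT (Γ : List Ty) (ρ : Env Γ) (x y : Cantor) (n : ℕ) :
    at1 (eval (pairT Γ) (ext (embC x) (ext (embC y) ρ))) n = Part.some (pairF x y n) := by
  show pt (casesF (ap (embC x) (ofPt (Part.some n)))
    (casesF (ap (embC y) (ofPt (Part.some n))) (eval .zero _) (eval one _))
    (casesF (ap (embC y) (ofPt (Part.some n))) (eval two _) (eval three _))) = _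
  rw [eval_zero, eval_one, eval_two, eval_three, casesF_of (at1_embC x n),
    casesF_of (at1_embC y n), casesF_of (at1_embC y n)]
  show _ = Part.some (2 * (x n).toNat + (y n).toNat)
  cases x n <;> cases y n <;> simp

theorem ap_tot2 (F : (ℕ → ℕ) → ℕ) {f : Dom ty1} {g : ℕ → ℕ} (h : ∀ n, at1 f n = Part.some (g n)) :
    pt (ap (tot2 F) f) = Part.some (F g) := by
  rw [Part.eq_some_iff]
  refine ⟨fun n => by rw [h n]; trivial, ?_⟩
  show F (fun n => (at1 f n).get _) = F g
  congr 1
  funext n
  exact Part.get_eq_iff_eq_some.2 (h n)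

open Classical in
theorem ap_omega (𝒞 : Set (Set Cantor)) {q : Dom ty2}
    (h : ∀ x, at2 q x = Part.some 0 ∨ at2 q x = Part.some 1)
    (hC : {x | at2 q x = Part.some 1} ∈ 𝒞) :
    pt (ap (Omega 𝒞) q) = Part.some (if {x | at2 q x = Part.some 1} = ∅ then 0 else 1) := by
  rw [Part.eq_some_iff]
  exact ⟨⟨h, hC⟩, rfl⟩

theorem fix_eq {Γ : List Ty} {σ : Ty} (t : Term (σ :: Γ) σ) (ρ : Env Γ) :
    eval t (ext (eval (.app (.fix σ) (.lam t)) ρ) ρ) = eval (.app (.fix σ) (.lam t)) ρ :=
  lfpD_eq (show Dom σ →o Dom σ from eval (.lam t) ρ)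

/-! ### The term -/

/-- `λ b. Ω (λ y. if y ∈ X, R y b and e y = 0 then 1 else 0)`; the variables are `e`, the
characteristic function of `X`, `Ω` and `R`. -/
def body : Term (ty2 :: ty2 :: [ty3, ty2]) ty2 :=
  .lam (.app (.var (.succ (.succ (.succ .zero))))
    (.lam (cs (.app (.var (.succ (.succ (.succ .zero)))) (.var .zero)) .zero
      (cs (.app (.var (.succ (.succ (.succ (.succ (.succ .zero)))))) (pairT _)) .zero
        (cs (.app (.var (.succ (.succ .zero))) (.var .zero)) one .zero)))))

/-- The least fixed point of `body`. -/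
def least : Term (ty2 :: [ty3, ty2]) ty2 := .app (.fix ty2) (.lam body)

/-- The term which computes `Omega (WO R)`. -/
def tm : Term [ty3, ty2] ty3 :=
  .lam (.app (.lam (.app (.var (.succ (.succ .zero)))
    (.lam (cs (.app (.var (.succ (.succ .zero))) (.var .zero)) .zero
      (cs (.app (.var (.succ .zero)) (.var .zero)) one .zero))))) least)

open Classical in
theorem at2_least (R : Cantor → Cantor → Prop) (p : Dom ty2)
    (hp : ∀ x, at2 p x = Part.some 0 ∨ at2 p x = Part.some 1)
    (hX : {x | at2 p x = Part.some 1} ∈ WO R) (b : Cantor) (hb : at2 p b = Part.some 1) :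
    at2 (eval least (ext p (ext OmegaB (ext (tot2 (chi R)) empt)))) b =
      Part.some (if ∃ y, at2 p y = Part.some 1 ∧ R y b then 1 else 0) := by
  set ρ : Env (ty2 :: [ty3, ty2]) := ext p (ext OmegaB (ext (tot2 (chi R)) empt)) with hρ
  set L : Dom ty2 := eval least ρ with hL
  have hfix : eval body (ext L ρ) = L := fix_eq body ρ
  obtain ⟨hwf, htri⟩ := hX
  have hb' : b ∈ {x | at2 p x = Part.some 1} := hb
  refine hwf.induction (P := fun b => at2 L b =
      Part.some (if ∃ y, at2 p y = Part.some 1 ∧ R y b then 1 else 0)) hb' ?_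
  clear hb hb' b
  intro b hb ih
  have hb1 : at2 p b = Part.some 1 := hb
  rw [← hfix]
  let q : Dom ty2 := eval (.lam (cs (.app (.var (.succ (.succ (.succ .zero)))) (.var .zero)) .zero
      (cs (.app (.var (.succ (.succ (.succ (.succ (.succ .zero)))))) (pairT _)) .zero
        (cs (.app (.var (.succ (.succ .zero))) (.var .zero)) one .zero))))
        (ext (embC b) (ext L ρ))
  show pt (ap OmegaB q) = _
  have hq : ∀ y, at2 q y = Part.some (if at2 p y = Part.some 1 ∧ R y b ∧
      ¬ ∃ z, at2 p z = Part.some 1 ∧ R z y then 1 else 0) := by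
    intro y
    show pt (casesF (ap p (embC y)) (eval .zero _) (casesF (ap (tot2 (chi R))
      (eval (pairT _) (ext (embC y) (ext (embC b) (ext L ρ))))) (eval .zero _)
        (casesF (ap L (embC y)) (eval one _) (eval .zero _)))) = _
    rw [eval_zero, eval_one]
    rcases hp y with h | h
    · rw [casesF_of h, if_pos rfl, if_neg]
      · rfl
      · rintro ⟨h1, _⟩
        rw [h] at h1
        exact absurd (Part.some_injective h1) (by norm_num)
    · rw [casesF_of h, if_neg one_ne_zero, casesF_of (ap_tot2 (chi R) (at1_pairT _ _ y b))]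
      have hc : chi R (pairF y b) = if R y b then 1 else 0 := by
        unfold chi
        rw [fstC_pairF, sndC_pairF]
      rw [hc]
      by_cases hR : R y b
      · rw [if_pos hR, if_neg one_ne_zero, casesF_of (ih y h hR)]
        by_cases hz : ∃ z, at2 p z = Part.some 1 ∧ R z y
        · rw [if_pos hz, if_neg one_ne_zero, if_neg (fun h' => h'.2.2 hz)]
          rfl
        · rw [if_neg hz, if_pos rfl, if_pos ⟨h, hR, hz⟩]
          rfl
      · rw [if_neg hR, if_pos rfl, if_neg (fun h' => hR h'.2.1)]
        rfl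
  have hset : {y | at2 q y = Part.some 1} = {y | at2 p y = Part.some 1 ∧ R y b ∧
      ¬ ∃ z, at2 p z = Part.some 1 ∧ R z y} := by
    ext y
    rw [Set.mem_ofPred_eq, Set.mem_ofPred_eq, hq]
    constructor
    · intro h
      by_contra hc
      rw [if_neg hc] at h
      exact absurd (Part.some_injective h) (by norm_num)
    · intro h
      rw [if_pos h]
  have h01 : ∀ y, at2 q y = Part.some 0 ∨ at2 q y = Part.some 1 := by
    intro y
    rw [hq]
    split_ifs
    · exact Or.inr rfl
    · exact Or.inl rfl
  have hsub : {y | at2 q y = Part.some 1} ∈ {X : Set Cantor | X.Subsingleton} := by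
    rw [hset]
    rintro y ⟨h1, _, h3⟩ z ⟨h4, _, h6⟩
    rcases htri y h1 z h4 with h | h | h
    · exact absurd ⟨y, h1, h⟩ h6
    · exact h
    · exact absurd ⟨z, h4, h⟩ h3
  have key := ap_omega {X : Set Cantor | X.Subsingleton} h01 hsub
  refine Eq.trans key ?_
  congr 1
  by_cases hex : ∃ y, at2 p y = Part.some 1 ∧ R y b
  · rw [if_pos hex, if_neg]
    obtain ⟨y, hy1, hy2⟩ := hex
    rw [hset]
    have hne : ({x | at2 p x = Part.some 1} : Set Cantor).Nonempty := ⟨b, hb⟩
    obtain ⟨m, hm, hmin⟩ : ∃ m, at2 p m = Part.some 1 ∧ ∀ z, at2 p z = Part.some 1 → ¬ R z m := by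
      have h1 := hwf.has_min (Set.univ) ⟨⟨b, hb⟩, trivial⟩
      obtain ⟨⟨m, hm⟩, _, h2⟩ := h1
      exact ⟨m, hm, fun z hz => h2 ⟨z, hz⟩ trivial⟩
    intro h0
    have : m ∈ ({y | at2 p y = Part.some 1 ∧ R y b ∧
      ¬ ∃ z, at2 p z = Part.some 1 ∧ R z y} : Set Cantor) := by
      refine ⟨hm, ?_, ?_⟩
      · rcases htri m hm b hb with h | h | h
        · exact h
        · subst h
          exact absurd hy2 (hmin y hy1)
        · exact absurd h (hmin b hb)
      · rintro ⟨z, hz1, hz2⟩
        exact hmin z hz1 hz2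
    rw [h0] at this
    exact this
  · rw [if_neg hex, if_pos]
    rw [hset]
    ext y
    constructor
    · rintro ⟨h1, h2, _⟩
      exact hex ⟨y, h1, h2⟩
    · intro h
      exact h.elim

/-- **The positive theorem.** -/
theorem omega_WO_le (R : Cantor → Cantor → Prop) :
    Omega (WO R) ≤ eval tm (ext OmegaB (ext (tot2 (chi R)) empt)) := by
  classical
  rw [le_arr]
  intro p
  rw [le_nat]
  rintro k ⟨⟨hp, hX⟩, hk⟩
  have hk' : (if {x | at2 p x = Part.some 1} = ∅ then 0 else 1) = k := hk
  set ρ : Env (ty2 :: [ty3, ty2]) := ext p (ext OmegaB (ext (tot2 (chi R)) empt)) with hρ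
  set L : Dom ty2 := eval least ρ with hL
  let q : Dom ty2 := eval (.lam (cs (.app (.var (.succ (.succ .zero))) (.var .zero)) .zero
      (cs (.app (.var (.succ .zero)) (.var .zero)) one .zero))) (ext L ρ)
  show k ∈ pt (ap OmegaB q)
  have hq : ∀ y, at2 q y = Part.some (if at2 p y = Part.some 1 ∧
      ¬ ∃ z, at2 p z = Part.some 1 ∧ R z y then 1 else 0) := by
    intro y
    show pt (casesF (ap p (embC y)) (eval .zero _)
        (casesF (ap L (embC y)) (eval one _) (eval .zero _))) = _
    rw [eval_zero, eval_one]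
    rcases hp y with h | h
    · rw [casesF_of h, if_pos rfl, if_neg]
      · rfl
      · rintro ⟨h1, _⟩
        rw [h] at h1
        exact absurd (Part.some_injective h1) (by norm_num)
    · rw [casesF_of h, if_neg one_ne_zero, casesF_of (at2_least R p hp hX y h)]
      by_cases hz : ∃ z, at2 p z = Part.some 1 ∧ R z y
      · rw [if_pos hz, if_neg one_ne_zero, if_neg (fun h' => h'.2 hz)]
        rfl
      · rw [if_neg hz, if_pos rfl, if_pos ⟨h, hz⟩]
        rfl
  have hset : {y | at2 q y = Part.some 1} = {y | at2 p y = Part.some 1 ∧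
      ¬ ∃ z, at2 p z = Part.some 1 ∧ R z y} := by
    ext y
    rw [Set.mem_ofPred_eq, Set.mem_ofPred_eq, hq]
    constructor
    · intro h
      by_contra hc
      rw [if_neg hc] at h
      exact absurd (Part.some_injective h) (by norm_num)
    · intro h
      rw [if_pos h]
  have h01 : ∀ y, at2 q y = Part.some 0 ∨ at2 q y = Part.some 1 := by
    intro y
    rw [hq]
    split_ifs
    · exact Or.inr rfl
    · exact Or.inl rfl
  have hsub : {y | at2 q y = Part.some 1} ∈ {X : Set Cantor | X.Subsingleton} := by
    rw [hset]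
    rintro y ⟨h1, h3⟩ z ⟨h4, h6⟩
    rcases hX.2 y h1 z h4 with h | h | h
    · exact absurd ⟨y, h1, h⟩ h6
    · exact h
    · exact absurd ⟨z, h4, h⟩ h3
  have key := ap_omega {X : Set Cantor | X.Subsingleton} h01 hsub
  have key' : pt (ap OmegaB q) = _ := key
  rw [key', Part.mem_some_iff, ← hk']
  by_cases hne : ({x | at2 p x = Part.some 1} : Set Cantor) = ∅
  · rw [if_pos hne, if_pos]
    rw [hset]
    ext y
    constructor
    · rintro ⟨h1, _⟩
      rw [← hne]
      exact h1
    · intro h
      exact h.elim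
  · rw [if_neg hne, if_neg]
    rw [hset]
    obtain ⟨b, hb⟩ := Set.nonempty_iff_ne_empty.2 hne
    have h1 := hX.1.has_min (Set.univ) ⟨⟨b, hb⟩, trivial⟩
    obtain ⟨⟨m, hm⟩, _, h2⟩ := h1
    intro h0
    have : m ∈ ({y | at2 p y = Part.some 1 ∧
      ¬ ∃ z, at2 p z = Part.some 1 ∧ R z y} : Set Cantor) := by
      refine ⟨hm, ?_⟩
      rintro ⟨z, hz1, hz2⟩
      exact h2 ⟨z, hz1⟩ trivial hz2
    rw [h0] at this
    exact this

/-- Every set is well-ordered by a suitable relation: there is a functional of type `2` which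
together with `Ω_b` computes the functional deciding emptiness of all sets. -/
theorem omega_univ_le : ∃ F : (ℕ → ℕ) → ℕ,
    Omega Set.univ ≤ eval tm (ext OmegaB (ext (tot2 F) empt)) := by
  obtain ⟨r, hr⟩ := exists_wellFoundedLT Cantor
  refine ⟨chi (fun x y => r.lt x y), ?_⟩
  have h := omega_WO_le (fun x y => r.lt x y)
  have hu : WO (fun x y => r.lt x y) = Set.univ := by
    ext X
    simp only [Set.mem_univ, iff_true]
    refine ⟨?_, fun x _ y _ => ?_⟩
    · exact Set.WellFoundedOn.subset (Set.wellFoundedOn_univ.2 hr.wf) (Set.subset_univ X)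
    · exact @lt_trichotomy _ r x y
  rw [hu] at h
  exact h

end Pool.Agent.Y502.OM
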